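import Mathlib

set_option linter.all false

open Filter Topology

namespace Pool.Agent.H51.SY

theorem slice {A W Y : Type*} [NormedAddCommGroup A] [NormedSpace ℝ A] [CompleteSpace A]
    [NormedAddCommGroup W] [NormedSpace ℝ W] [FiniteDimensional ℝ W]
    [NormedAddCommGroup Y] [NormedSpace ℝ Y]
    (F : A × W → W) (f' : A × W →L[ℝ] W) (hF : HasStrictFDerivAt F f' 0)
    (hf' : ∀ w, f' (0, w) = w) (R : W → Y) (δ : W →L[ℝ] Y) (hR : HasStrictFDerivAt R δ 0)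
    (hR0 : R 0 = 0) (hker : ∀ w, δ w = 0 → ∃ a, f' (a, 0) = w) {V : Set (A × W)}
    (hV : V ∈ 𝓝 (0 : A × W)) :
    ∀ᶠ y in 𝓝 (F 0), ∃ a w, y = F (a, w) ∧ (a, w) ∈ V ∧ (R w = 0 → w = 0) := by
  classical
  let T : A →ₗ[ℝ] W := (f' : A × W →ₗ[ℝ] W) ∘ₗ LinearMap.inl ℝ A W
  have hT : ∀ a, T a = f' (a, 0) := fun _ => rfl
  obtain ⟨q, hq⟩ := (LinearMap.range T).exists_isCompl
  let D : q →ₗ[ℝ] Y := (δ : W →ₗ[ℝ] Y) ∘ₗ q.subtype
  have hDk : LinearMap.ker D = ⊥ := by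
    rw [LinearMap.ker_eq_bot']
    intro w hw
    obtain ⟨a, ha⟩ := hker w hw
    exact Subtype.ext ((Submodule.disjoint_def.1 hq.disjoint) _ ⟨a, ha⟩ w.2)
  obtain ⟨K, hK, hanti⟩ := LinearMap.exists_antilipschitzWith D hDk
  have hKb : ∀ w : q, ‖(w : W)‖ ≤ K * ‖δ (w : W)‖ := by
    intro w
    have := hanti.le_mul_dist w 0
    simp only [map_zero, dist_zero_right] at this
    exact this
  let inc : A × q →L[ℝ] A × W :=
    (ContinuousLinearMap.fst ℝ A q).prod (q.subtypeL ∘L ContinuousLinearMap.snd ℝ A q)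
  have hsl : HasStrictFDerivAt (fun p : A × q => F (inc p)) (f' ∘L inc) 0 := by
    have h0 : HasStrictFDerivAt F f' (inc 0) := by rw [map_zero]; exact hF
    exact h0.comp (0 : A × q) (inc.hasStrictFDerivAt)
  have hsurj : LinearMap.range (f' ∘L inc : A × q →L[ℝ] W).toLinearMap = ⊤ := by
    rw [eq_top_iff]
    intro μ _
    have hμ : μ ∈ LinearMap.range T ⊔ q := by rw [hq.sup_eq_top]; trivial
    obtain ⟨_, ⟨ψ, rfl⟩, w, hw, rfl⟩ := Submodule.mem_sup.1 hμ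
    refine ⟨(ψ, ⟨w, hw⟩), ?_⟩
    change f' (ψ, w) = _
    have : (ψ, w) = (ψ, (0 : W)) + ((0 : A), w) := by simp
    rw [this, map_add, hf', hT]
  have hmap := HasStrictFDerivAt.map_nhds_eq_of_surj hsl hsurj
  -- the bound for `R`
  have hKpos : (0 : ℝ) < K := by exact_mod_cast hK
  have hb : ∀ᶠ w in 𝓝 (0 : W), ‖R w - δ w‖ ≤ 1 / (2 * K) * ‖w‖ := by
    have h1 := hR.hasFDerivAt.isLittleO.def (c := 1 / (2 * K)) (by positivity)
    filter_upwards [h1] with w hw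
    simpa [hR0] using hw
  have hb' : ∀ᶠ p in 𝓝 (0 : A × q), ‖R ((p.2 : q) : W) - δ ((p.2 : q) : W)‖
      ≤ 1 / (2 * K) * ‖((p.2 : q) : W)‖ := by
    have : Tendsto (fun p : A × q => ((p.2 : q) : W)) (𝓝 0) (𝓝 0) := by
      have h : Continuous (fun p : A × q => ((p.2 : q) : W)) := by fun_prop
      exact h.tendsto' 0 0 rfl
    exact this.eventually hb
  have hV' : ∀ᶠ p in 𝓝 (0 : A × q), inc p ∈ V := by
    have h : Tendsto inc (𝓝 0) (𝓝 0) := by
      have := inc.continuous.tendsto 0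
      rwa [map_zero] at this
    exact h hV
  have himg := Filter.image_mem_map (m := fun p : A × q => F (inc p)) (hb'.and hV')
  rw [hmap] at himg
  have hz : F (inc 0) = F 0 := by rw [map_zero]
  rw [hz] at himg
  filter_upwards [himg] with y hy
  obtain ⟨p, ⟨hp1, hp2⟩, rfl⟩ := hy
  refine ⟨p.1, p.2, rfl, hp2, fun hR0' => ?_⟩
  by_contra hne
  have hpos : 0 < ‖((p.2 : q) : W)‖ := norm_pos_iff.2 hne
  have h1 := hKb p.2
  rw [hR0', zero_sub, norm_neg] at hp1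
  have h3 : ‖((p.2 : q) : W)‖ ≤ K * (1 / (2 * K) * ‖((p.2 : q) : W)‖) :=
    h1.trans (by gcongr)
  have h4 : (K : ℝ) * (1 / (2 * K) * ‖((p.2 : q) : W)‖) = ‖((p.2 : q) : W)‖ / 2 := by
    field_simp
  rw [h4] at h3
  linarith

end Pool.Agent.H51.SY
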