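import Pool.Agent.H51.SY.A
import Pool.Agent.TH77.Ad

set_option linter.all false

open Filter Topology Metric Set Pool.Agent.TH77

namespace Pool.Agent.H51.SY

variable {H : Type*} [Group H] [TopologicalSpace H] [IsTopologicalGroup H] [T2Space H]
  {E : Type*} [NormedAddCommGroup E] [NormedSpace ℝ E] [FiniteDimensional ℝ E] (L : LG H E)

/-- conjugation in exponential coordinates -/
noncomputable def FF {k : ℕ} (x : Fin k → H) (p : E × (Fin k → E)) : Fin k → E :=
  fun i => L.mul (L.mul (p.1, p.2 i), -(L.Ad (x i) : E →L[ℝ] E) p.1)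

/-- its derivative -/
noncomputable def FF' {k : ℕ} (x : Fin k → H) : E × (Fin k → E) →L[ℝ] (Fin k → E) :=
  ContinuousLinearMap.pi fun i =>
    ContinuousLinearMap.fst ℝ E (Fin k → E) + (ContinuousLinearMap.proj i).comp
      (ContinuousLinearMap.snd ℝ E (Fin k → E))
      + (-(L.Ad (x i) : E →L[ℝ] E).comp (ContinuousLinearMap.fst ℝ E (Fin k → E)))

lemma FF_zero {k : ℕ} (x : Fin k → H) : FF L x 0 = 0 := by
  funext i
  show L.mul (L.mul ((0 : E), (0 : E)), -(L.Ad (x i) : E →L[ℝ] E) 0) = 0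
  have h0 : L.mul ((0 : E), (0 : E)) = 0 := L.mul_zero
  rw [h0, map_zero, neg_zero, h0]

lemma FF_deriv {k : ℕ} (x : Fin k → H) : HasStrictFDerivAt (FF L x) (FF' L x) 0 := by
  rw [hasStrictFDerivAt_pi']
  intro i
  have h0 : L.mul ((0 : E), (0 : E)) = 0 := L.mul_zero
  have hinner : HasStrictFDerivAt (fun p : E × (Fin k → E) => L.mul (p.1, p.2 i))
      (ContinuousLinearMap.fst ℝ E (Fin k → E) + (ContinuousLinearMap.proj i).comp
      (ContinuousLinearMap.snd ℝ E (Fin k → E))) 0 := by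
    have h1 : HasStrictFDerivAt (fun p : E × (Fin k → E) => (p.1, p.2 i))
        ((ContinuousLinearMap.fst ℝ E (Fin k → E)).prod ((ContinuousLinearMap.proj i).comp
      (ContinuousLinearMap.snd ℝ E (Fin k → E)))) 0 :=
      ((ContinuousLinearMap.fst ℝ E (Fin k → E)).prod ((ContinuousLinearMap.proj i).comp
      (ContinuousLinearMap.snd ℝ E (Fin k → E)))).hasStrictFDerivAt
    have h2 : HasStrictFDerivAt L.mul
        (ContinuousLinearMap.fst ℝ E E + ContinuousLinearMap.snd ℝ E E)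
        ((fun p : E × (Fin k → E) => (p.1, p.2 i)) 0) := L.mul_deriv
    exact h2.comp (0 : E × (Fin k → E)) h1
  have hpair := hinner.prodMk
    ((-((L.Ad (x i) : E →L[ℝ] E).comp (ContinuousLinearMap.fst ℝ E (Fin k → E))))
      : E × (Fin k → E) →L[ℝ] E).hasStrictFDerivAt (x := 0)
  have h2 : HasStrictFDerivAt L.mul
      (ContinuousLinearMap.fst ℝ E E + ContinuousLinearMap.snd ℝ E E)
      ((fun p : E × (Fin k → E) => (L.mul (p.1, p.2 i),
        (-((L.Ad (x i) : E →L[ℝ] E).comp (ContinuousLinearMap.fst ℝ E (Fin k → E)))) p)) 0) := by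
    have : ((fun p : E × (Fin k → E) => (L.mul (p.1, p.2 i),
        (-((L.Ad (x i) : E →L[ℝ] E).comp (ContinuousLinearMap.fst ℝ E (Fin k → E)))) p)) 0)
        = (0 : E × E) := by
      show (L.mul ((0 : E), (0 : E)), _) = _
      rw [h0, map_zero]
      rfl
    rw [this]
    exact L.mul_deriv
  exact h2.comp (0 : E × (Fin k → E)) hpair

/-- the cocycle equation in exponential coordinates -/
noncomputable def RR {k : ℕ} (x : Fin k → H) (μ : Fin k → Fin k → Fin k) (c : Fin k → E) :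
    Fin k → Fin k → E :=
  fun i j => L.mul (c i, (L.Ad (x i) : E →L[ℝ] E) (c j)) - c (μ i j)

/-- its derivative -/
noncomputable def RR' {k : ℕ} (x : Fin k → H) (μ : Fin k → Fin k → Fin k) :
    (Fin k → E) →L[ℝ] (Fin k → Fin k → E) :=
  ContinuousLinearMap.pi fun i => ContinuousLinearMap.pi fun j =>
    ((ContinuousLinearMap.proj i : (Fin k → E) →L[ℝ] E)
      + (L.Ad (x i) : E →L[ℝ] E).comp (ContinuousLinearMap.proj j)) - ContinuousLinearMap.proj (μ i j)

lemma RR_zero {k : ℕ} (x : Fin k → H) (μ : Fin k → Fin k → Fin k) : RR L x μ 0 = 0 := by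
  funext i j
  show L.mul ((0 : E), (L.Ad (x i) : E →L[ℝ] E) 0) - 0 = 0
  have h0 : L.mul ((0 : E), (0 : E)) = 0 := L.mul_zero
  rw [map_zero, h0, sub_zero]

lemma RR_deriv {k : ℕ} (x : Fin k → H) (μ : Fin k → Fin k → Fin k) :
    HasStrictFDerivAt (RR L x μ) (RR' L x μ) 0 := by
  rw [hasStrictFDerivAt_pi']
  intro i
  rw [hasStrictFDerivAt_pi']
  intro j
  have h1 : HasStrictFDerivAt (fun c : Fin k → E => (c i, (L.Ad (x i) : E →L[ℝ] E) (c j)))
      ((ContinuousLinearMap.proj i : (Fin k → E) →L[ℝ] E).prod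
        ((L.Ad (x i) : E →L[ℝ] E).comp (ContinuousLinearMap.proj j))) 0 :=
    ((ContinuousLinearMap.proj i : (Fin k → E) →L[ℝ] E).prod
        ((L.Ad (x i) : E →L[ℝ] E).comp (ContinuousLinearMap.proj j))).hasStrictFDerivAt
  have h2 : HasStrictFDerivAt L.mul
      (ContinuousLinearMap.fst ℝ E E + ContinuousLinearMap.snd ℝ E E)
      ((fun c : Fin k → E => (c i, (L.Ad (x i) : E →L[ℝ] E) (c j))) 0) := by
    have : ((fun c : Fin k → E => (c i, (L.Ad (x i) : E →L[ℝ] E) (c j))) 0) = (0 : E × E) := by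
      show ((0 : E), (L.Ad (x i) : E →L[ℝ] E) 0) = _
      rw [map_zero]
      rfl
    rw [this]
    exact L.mul_deriv
  have h3 := h2.comp (0 : Fin k → E) h1
  exact h3.sub (ContinuousLinearMap.proj (μ i j) : (Fin k → E) →L[ℝ] E).hasStrictFDerivAt

lemma hker {k : ℕ} (x : Fin k → H) (μ : Fin k → Fin k → Fin k)
    (hμ : ∀ i, Function.Bijective (μ i)) (w : Fin k → E) (hw : RR' L x μ w = 0) :
    ∃ a, FF' L x (a, 0) = w := by
  refine ⟨(1 / (k : ℝ)) • ∑ j, w j, ?_⟩
  funext i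
  have hk : (k : ℝ) ≠ 0 := by
    have : 0 < k := Fin.pos i
    exact_mod_cast this.ne'
  have h1 : ∀ j, w (μ i j) = w i + (L.Ad (x i) : E →L[ℝ] E) (w j) := by
    intro j
    have h2 : (w i + (L.Ad (x i) : E →L[ℝ] E) (w j)) - w (μ i j) = 0 :=
      congrFun (congrFun hw i) j
    exact (sub_eq_zero.1 h2).symm
  have h2 : ∑ j, w (μ i j) = ∑ j, w j :=
    (Equiv.ofBijective _ (hμ i)).sum_comp w
  rw [Finset.sum_congr rfl fun j _ => h1 j, Finset.sum_add_distrib, ← map_sum,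
    Finset.sum_const, Finset.card_univ, Fintype.card_fin] at h2
  show (1 / (k : ℝ)) • ∑ j, w j + (0 : E) + (-(L.Ad (x i) : E →L[ℝ] E) ((1 / (k : ℝ)) • ∑ j, w j))
    = w i
  rw [map_smul, add_zero, ← smul_neg, ← smul_add]
  set s := ∑ j, w j with hs
  have h3 : s + -(L.Ad (x i) : E →L[ℝ] E) s = k • w i := by
    rw [← sub_eq_add_neg, sub_eq_iff_eq_add]; exact h2.symm
  rw [h3, ← Nat.cast_smul_eq_nsmul ℝ, smul_smul, one_div, inv_mul_cancel₀ hk, one_smul]

include L in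
/-- **Local rigidity** of homomorphisms from finite groups. -/
theorem rigid {k : ℕ} (x : Fin k → H) (μ : Fin k → Fin k → Fin k)
    (hμ : ∀ i, Function.Bijective (μ i)) (hx : ∀ i j, x i * x j = x (μ i j)) :
    ∀ᶠ y in 𝓝 x, (∀ i j, y i * y j = y (μ i j)) → ∃ a : H, ∀ i, y i = a * x i * a⁻¹ := by
  obtain ⟨r, hr, hinj⟩ := L.inj
  have hmulc : Tendsto L.mul (𝓝 0) (𝓝 0) := by
    have := L.mul_deriv.continuousAt.tendsto
    rwa [L.mul_zero] at this
  -- the neighbourhood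
  have hc1 : ∀ i, Tendsto (fun p : E × (Fin k → E) => (p.1, p.2 i)) (𝓝 0) (𝓝 (0 : E × E)) := by
    intro i
    have : Continuous (fun p : E × (Fin k → E) => (p.1, p.2 i)) := by fun_prop
    exact this.tendsto' 0 0 rfl
  have hc2 : ∀ i, Tendsto (fun p : E × (Fin k → E) => (L.mul (p.1, p.2 i),
      -(L.Ad (x i) : E →L[ℝ] E) p.1)) (𝓝 0) (𝓝 (0 : E × E)) := by
    intro i
    have h1 : Tendsto (fun p : E × (Fin k → E) => L.mul (p.1, p.2 i)) (𝓝 0) (𝓝 0) :=
      hmulc.comp (hc1 i)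
    have h2 : Tendsto (fun p : E × (Fin k → E) => -(L.Ad (x i) : E →L[ℝ] E) p.1) (𝓝 0) (𝓝 0) := by
      have : Continuous (fun p : E × (Fin k → E) => -(L.Ad (x i) : E →L[ℝ] E) p.1) := by fun_prop
      exact this.tendsto' 0 0 (by simp)
    exact h1.prodMk_nhds h2
  have hc3 : ∀ i j, Tendsto (fun p : E × (Fin k → E) => (p.2 i,
      (L.Ad (x i) : E →L[ℝ] E) (p.2 j))) (𝓝 0) (𝓝 (0 : E × E)) := by
    intro i j
    have : Continuous (fun p : E × (Fin k → E) => (p.2 i, (L.Ad (x i) : E →L[ℝ] E) (p.2 j))) := by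
      fun_prop
    exact this.tendsto' 0 0 (by simp)
  have hV : ∀ᶠ p in 𝓝 (0 : E × (Fin k → E)), (∀ i, L.exp p.1 * L.exp (p.2 i)
      = L.exp (L.mul (p.1, p.2 i))) ∧ (∀ i, L.exp (L.mul (p.1, p.2 i))
        * L.exp (-(L.Ad (x i) : E →L[ℝ] E) p.1) = L.exp (FF L x p i)) ∧
      (∀ i j, L.exp (p.2 i) * L.exp ((L.Ad (x i) : E →L[ℝ] E) (p.2 j))
        = L.exp (L.mul (p.2 i, (L.Ad (x i) : E →L[ℝ] E) (p.2 j)))) ∧
      (∀ i j, L.mul (p.2 i, (L.Ad (x i) : E →L[ℝ] E) (p.2 j)) ∈ ball (0 : E) r) ∧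
      (∀ i, p.2 i ∈ ball (0 : E) r) := by
    refine (eventually_all.2 fun i => (hc1 i).eventually L.exp_mul).and
      ((eventually_all.2 fun i => (hc2 i).eventually L.exp_mul).and
      ((eventually_all.2 fun i => eventually_all.2 fun j => (hc3 i j).eventually L.exp_mul).and
      ((eventually_all.2 fun i => eventually_all.2 fun j =>
        (hmulc.comp (hc3 i j)).eventually (ball_mem_nhds 0 hr)).and
        (eventually_all.2 fun i => ?_))))
    have : Tendsto (fun p : E × (Fin k → E) => p.2 i) (𝓝 0) (𝓝 0) := by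
      have : Continuous (fun p : E × (Fin k → E) => p.2 i) := by fun_prop
      exact this.tendsto' 0 0 rfl
    exact this.eventually (ball_mem_nhds 0 hr)
  have hs := slice (FF L x) (FF' L x) (FF_deriv L x) (fun w => by
      funext i
      show (0 : E) + w i + (-(L.Ad (x i) : E →L[ℝ] E) 0) = w i
      rw [map_zero, neg_zero, add_zero, zero_add]) (RR L x μ) (RR' L x μ) (RR_deriv L x μ)
    (RR_zero L x μ) (hker L x μ hμ) hV
  rw [FF_zero] at hs
  obtain ⟨ε, hε, hball⟩ := Metric.eventually_nhds_iff.1 hs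
  have hy : ∀ᶠ y in 𝓝 x, ∀ i, ∃ ξ : E, ‖ξ‖ < ε ∧ L.exp ξ = y i * (x i)⁻¹ := by
    rw [eventually_all]
    intro i
    have h1 : Tendsto (fun y : Fin k → H => y i * (x i)⁻¹) (𝓝 x) (𝓝 1) := by
      have : Continuous (fun y : Fin k → H => y i * (x i)⁻¹) := by fun_prop
      exact this.tendsto' x 1 (mul_inv_cancel _)
    exact h1.eventually (L.exists_exp_eq hε)
  filter_upwards [hy] with y hy hyt
  choose ξ hξ1 hξ2 using hy
  have hξ : dist ξ 0 < ε := by
    rw [dist_pi_lt_iff hε]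
    intro i
    rw [Pi.zero_apply, dist_zero_right]
    exact hξ1 i
  obtain ⟨η, c, hF, ⟨hv1, hv2, hv3, hv4, hv5⟩, hR⟩ := hball hξ
  have hconj : ∀ i, y i = L.exp η * (L.exp (c i) * x i) * (L.exp η)⁻¹ := by
    intro i
    have e1 : y i = L.exp (ξ i) * x i := by rw [hξ2]; group
    rw [e1, hF]
    have e2 := hv2 i
    rw [← hv1 i] at e2
    rw [← e2, L.exp_neg, L.exp_Ad]
    simp only [mul_inv_rev, inv_inv]
    group
  have hz : ∀ i, L.exp (c i) * x i = (L.exp η)⁻¹ * y i * L.exp η := by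
    intro i
    rw [hconj i]
    group
  have hc0 : c = 0 := by
    apply hR
    funext i j
    show L.mul (c i, (L.Ad (x i) : E →L[ℝ] E) (c j)) - c (μ i j) = 0
    rw [sub_eq_zero]
    refine hinj (hv4 i j) (hv5 _) ?_
    rw [← hv3 i j, L.exp_Ad]
    have e1 : L.exp (c i) * (x i * L.exp (c j) * (x i)⁻¹)
        = (L.exp (c i) * x i) * (L.exp (c j) * x j) * (x i * x j)⁻¹ := by group
    have e2 : L.exp (c (μ i j)) = (L.exp (c (μ i j)) * x (μ i j)) * (x (μ i j))⁻¹ := by group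
    rw [e1, e2, hz i, hz j, hz (μ i j), ← hyt i j, hx i j]
    group
  refine ⟨L.exp η, fun i => ?_⟩
  rw [hconj i, hc0]
  show L.exp η * (L.exp (0 : E) * x i) * (L.exp η)⁻¹ = _
  rw [L.exp_zero, one_mul]

end Pool.Agent.H51.SY
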