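import Pool.Agent.H51.SY.B

set_option linter.all false

open Filter Topology Metric Set Pool.Agent.TH77

namespace Pool.Agent.H51.SY

variable {G : Type*} [Group G] [TopologicalSpace G] [IsTopologicalGroup G] [T2Space G]
  [CompactSpace G] {E : Type*} [NormedAddCommGroup E] [NormedSpace ℝ E] [FiniteDimensional ℝ E]
  (L : LG G E)

include L in
theorem reps_table {k : ℕ} (μ : Fin k → Fin k → Fin k) (hμ : ∀ i, Function.Bijective (μ i)) :
    ∃ t : Set (Fin k → G), t.Finite ∧ ∀ y : Fin k → G, (∀ i j, y i * y j = y (μ i j)) →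
      ∃ x ∈ t, ∃ a : G, ∀ i, y i = a * x i * a⁻¹ := by
  have hclosed : IsClosed {y : Fin k → G | ∀ i j, y i * y j = y (μ i j)} := by
    simp only [setOf_forall]
    refine isClosed_iInter fun i => isClosed_iInter fun j => ?_
    exact isClosed_eq (by fun_prop) (by fun_prop)
  have hcomp : IsCompact {y : Fin k → G | ∀ i j, y i * y j = y (μ i j)} := hclosed.isCompact
  obtain ⟨t, ht, hcov⟩ := hcomp.elim_nhds_subcover
    (fun x => {y : Fin k → G | (∀ i j, y i * y j = y (μ i j)) → ∃ a : G, ∀ i, y i = a * x i * a⁻¹})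
    (fun x hx => rigid L x μ hμ hx)
  refine ⟨(t : Set (Fin k → G)), t.finite_toSet, fun y hy => ?_⟩
  have h1 := hcov hy
  simp only [mem_iUnion] at h1
  obtain ⟨x, hx, h2⟩ := h1
  exact ⟨x, hx, h2 hy⟩

include L in
/-- **Finiteness**: the finite subgroups of bounded order of a compact Lie group form finitely
many conjugacy classes. -/
theorem reps (m : ℕ) : ∃ R : Set (Subgroup G), R.Finite ∧ ∀ Γ : Subgroup G, Finite Γ →
    Nat.card Γ ≤ m → ∃ D ∈ R, ∃ a : G, Γ = D.map (MulAut.conj a).toMonoidHom := by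
  classical
  have h0 : ∀ (k : ℕ) (μ : Fin k → Fin k → Fin k), ∃ t : Set (Fin k → G), t.Finite ∧
      ((∀ i, Function.Bijective (μ i)) → ∀ y : Fin k → G, (∀ i j, y i * y j = y (μ i j)) →
      ∃ x ∈ t, ∃ a : G, ∀ i, y i = a * x i * a⁻¹) := by
    intro k μ
    by_cases h : ∀ i, Function.Bijective (μ i)
    · obtain ⟨t, ht, h1⟩ := reps_table L μ h
      exact ⟨t, ht, fun _ => h1⟩
    · exact ⟨∅, finite_empty, fun h' => absurd h' h⟩
  choose t ht hrep using h0
  refine ⟨⋃ k : Fin (m + 1), ⋃ μ : Fin (k : ℕ) → Fin (k : ℕ) → Fin (k : ℕ),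
    (fun x : Fin (k : ℕ) → G => Subgroup.closure (range x)) '' t k μ, ?_, ?_⟩
  · refine finite_iUnion fun k => finite_iUnion fun μ => (ht k μ).image _
  · intro Γ hfin hcard
    obtain ⟨k, hk⟩ : ∃ k, Nat.card Γ = k := ⟨_, rfl⟩
    rw [hk] at hcard
    haveI := hfin
    let e : Fin k ≃ Γ := (Finite.equivFinOfCardEq hk).symm
    let μ : Fin k → Fin k → Fin k := fun i j => e.symm (e i * e j)
    have hμ : ∀ i, Function.Bijective (μ i) := fun i =>
      e.symm.bijective.comp ((Equiv.mulLeft (e i)).bijective.comp e.bijective)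
    obtain ⟨x, hx, a, ha⟩ := hrep k μ hμ (fun i => (e i : G)) (by
      intro i j
      show (e i : G) * (e j : G) = ((e (e.symm (e i * e j)) : Γ) : G)
      rw [Equiv.apply_symm_apply]
      rfl)
    refine ⟨Subgroup.closure (range x), ?_, a, ?_⟩
    · rw [mem_iUnion]
      refine ⟨⟨k, by omega⟩, ?_⟩
      rw [mem_iUnion]
      exact ⟨μ, x, hx, rfl⟩
    · rw [MonoidHom.map_closure, ← range_comp]
      have h1 : Γ = Subgroup.closure (range fun i => (e i : G)) := by
        have h2 : range (fun i => (e i : G)) = (Γ : Set G) := by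
          ext g
          constructor
          · rintro ⟨i, rfl⟩
            exact (e i).2
          · intro hg
            exact ⟨e.symm ⟨g, hg⟩, by simp⟩
        rw [h2, Subgroup.closure_eq]
      conv_lhs => rw [h1]
      congr 1
      congr 1
      funext i
      exact ha i

end Pool.Agent.H51.SY
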